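import Pool.Agent.N876.FL.Crit
import Pool.Agent.Run7.h199.CV.Arith

/-!
# The Tate conjecture for products of cyclic coverings with varieties whose Frobenius eigenvalues are
# fixed by suitable automorphisms

Let `k` be a finite field (or a finitely generated field of any characteristic), with absolute Galois
group `Γ`, and let `X_1, …, X_r` be smooth projective varieties over `k`, of any dimensions
`n_i ≥ 1`, which are models of cyclic coverings

  `w ^ N_i = ∏ l_{i,k} (x) ^ a_{i,k}`   (`s_i` hyperplanes `l_{i,k} = 0`)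

of the projective spaces of dimension `n_i`, with exponents prime to `N_i`. Let `Y` be **any** smooth
projective variety over `k`.

Let `κ` be the finite field `k` (or the residue field of a closed point of a model of `k` over which
everything has good reduction), with `q = c ^ f` elements and geometric Frobenius `σ`, such that `N_i`
divides `q - 1`. As in the library (`IsCyclicCovering`): the cohomology of `X_i` is the sum of a space
with a basis of classes of algebraic cycles defined over `k`, and of a space `W_i` in degree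
`n_i` without invariants under the covering group, pure of weight `n_i`, for which the trace formula of
Grothendieck and Lefschetz holds for the compositions of the Frobenius with the elements of the
covering group. `weight X j` is the mean over the orbit `j, c j, …, c ^ (f - 1) j` of the sum of the
fractional parts of `j a_k / N`. `N` is a common multiple of the `N_i`.

An eigenvalue `β` of the Frobenius on the cohomology of `Y` is *separated* from the coverings
(`IsSeparated`) if for every nonempty set `I` of indices and all `j_i` not divisible by `N_i` (`i ∈ I`)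
there is a `u` prime to `N` such that one of the following holds:

* (automorphism) some automorphism `τ` of the field of algebraic numbers maps `β` to `β` times a root of
  unity, acts on the roots of unity of order `N` as the power `v`, and changes the weight by more than
  the sum of the numbers `s_i - n_i - 2`:
  `∑ weight X_i (v u j_i) - ∑ weight X_i (u j_i) > ∑ (s_i - n_i - 2)`;
* (level) `q ^ λ β / β̄` is an algebraic integer and
  `∑ weight X_i (u j_i) + λ / 2 < ∑ (n_i / 2 + 1)`.

**Theorem.** (1) Suppose that every eigenvalue `β` of `σ` on the cohomology of `Y` is separated. Then, for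
every finite extension `k'` of `k`, the Tate classes over `k'` of `X_1 × ⋯ × X_r × Y` of codimension `w`
are exactly the linear combinations of the products `e_1 × ⋯ × e_r × b`, where the `e_i` are the classes
of algebraic cycles on `X_i` and `b` is a Tate class over `k'` of `Y` of codimension `w - ∑ codim e_i`. In
particular **the Tate conjecture holds for `X_1 × ⋯ × X_r × Y` if it holds for `Y`**, in all
codimensions and over all finite extensions. The same is true for the generalised eigenspaces of the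
powers of the Frobenius.

(2) If complex conjugation of the roots of unity of order `N` is induced by an automorphism which fixes
`β` up to a root of unity, then it is sufficient for `β` to be separated that for all `I`, `j` there is
a `u` prime to `N` with `∑ weight X_i (u j_i) < ∑ (n_i / 2 + 1)`.

(3) Let the `N_i` be different odd prime numbers, `c ≡ 1 mod N_i`, and `X_i` the covering
`w ^ N_i = l_1 ⋯ l_{N_i}` of the projective space of dimension `n_i = N_i - 2`. Then **`β` is separated if
for every `i` some positive power of `β` generates a field which does not contain the roots of unity of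
order `N_i`**.

(4) Hence, for such `X_i`, the conclusion of (1) holds for **all** varieties `Y`, of arbitrary dimension
and level, for which the eigenvalues of the Frobenius have degree less than `N_i - 1` over `ℚ` for all
`i`, for example (characteristic polynomials with rational coefficients) if all Betti numbers of `Y`
are smaller than `N_i - 1`.

So the same elliptic curve with complex multiplication by `ℚ(√(-N_i))` may be a factor of `Y` with
arbitrary multiplicity, although its field is contained in the field of roots of unity of order `N_i`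
and the level of its powers is not bounded. (The result `MP_950c68_ag.ProductsOfSmallLevel` of the
library is the case that only the condition on the level is used, with the same `λ` for all `β`.)

The proof. Let `α_i` be eigenvalues of `σ` on `W_i` (`i ∈ I`), and suppose that `β ∏ α_i` is a power of
`q` times a root of unity. Embed the algebraic numbers into an algebraic closure of the field of
`c`-adic numbers such that `α_i` belongs to the exponent `u j_i`. By the theorem of Stickelberger on Gauss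
sums (in the form of the estimates of the library for sums over hyperplane arrangements) the valuation
of `∏ α_i` is at least `∑ (n_i + 1) - ∑ weight X_i (u j_i)`, and by the same estimate for the complex
conjugates the valuation of `∏ τ α_i` is at most `∑ (s_i - 1) - ∑ weight X_i (v u j_i)`. Since `τ` fixes `β`
up to a root of unity, the two products have the same valuation.

Purity (Deligne), the trace formula and the decomposition of the cohomology of the `X_i` are
hypotheses.

helper199; built on the library of the starting files (`N876`: helper876; estimates of sums over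
hyperplane arrangements by Gauss sums: helper528 and helpers 800, 883, 135, 563, 271, 540, 400, 999, 782,
605, 346; traces on eigenspaces: helper117).
-/

set_option autoImplicit false

open Finset Polynomial TensorProduct

namespace Pool.Agent.Results.MP_0fca13_ag.CoveringsTimesAnyVariety

/-- A cyclic covering `w ^ N = ∏ l_k (x) ^ a_k` of the projective space of dimension `n`, and a root of
unity `z`. -/
structure Covering (κ : Type) [Field κ] : Type where
  N : ℕ
  n : ℕ
  s : ℕ
  l : Fin s → Fin (n + 1) → κ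
  a : Fin s → ℕ
  z : κ

/-- `z` has order `N ≥ 2`, the exponents are prime to `N` and their sum is divisible by `N`. -/
structure Covering.IsAdmissible {κ : Type} [Field κ] (X : Covering κ) : Prop where
  two_le : 2 ≤ X.N
  root : IsPrimitiveRoot X.z X.N
  coprime : ∀ k, (X.a k).Coprime X.N
  dvd : X.N ∣ ∑ k, X.a k

/-- The value of the form `∏ l_k ^ a_k` at a vector with coordinates in `L`. -/
def Covering.value {κ : Type} [Field κ] (X : Covering κ) (L : Type) [Field L] [Algebra κ L]
    (x : Fin (X.n + 1) → L) : L :=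
  ∏ k, (∑ t, algebraMap κ L (X.l k t) * x t) ^ X.a k

/-- The number of vectors over `L` where the form is not zero. -/
noncomputable def Covering.openCount {κ : Type} [Field κ] (X : Covering κ) (L : Type) [Field L]
    [Algebra κ L] : ℕ :=
  Set.ncard {x : Fin (X.n + 1) → L | X.value L x ≠ 0}

/-- The number of vectors over `L` where the form is not zero and its power with the exponent
`(|L| - 1) / N` is `z ^ i`. -/
noncomputable def Covering.fixCount {κ : Type} [Field κ] (X : Covering κ) (L : Type) [Field L]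
    [Fintype L] [Algebra κ L] (i : ℕ) : ℕ :=
  Set.ncard {x : Fin (X.n + 1) → L | X.value L x ≠ 0 ∧
    (X.value L x) ^ ((Fintype.card L - 1) / X.N) = algebraMap κ L X.z ^ i}

/-- `W` is the part without invariants of the cohomology of degree `n` of a smooth projective model
of the covering, with the Frobenius `Φ` and the generator `g` of the covering group. The trace
of `Φ ^ [L : κ] g ^ i` is up to the sign the difference of the number of fixed points over the open
set `∏ l_k ≠ 0` of projective space (`N` points over each point where the form has the power residue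
symbol `z ^ i`) and of the number of the points of this open set. -/
structure IsCyclicCovering {κ : Type} [Field κ] (X : Covering κ) {W : Type} [AddCommGroup W]
    [Module ℂ W] (Φ g : Module.End ℂ W) : Prop where
  commute : Commute Φ g
  order : g ^ X.N = 1
  invariants : ∀ w, g w = w → w = 0
  lefschetz : ∀ (L : Type) [Field L] [Fintype L] [Algebra κ L] (i : ℕ),
    ((Fintype.card L : ℂ) - 1) *
        ((-1) ^ X.n * LinearMap.trace ℂ W (Φ ^ Module.finrank κ L * g ^ i)) =
      (X.N : ℂ) * (X.fixCount L i : ℂ) - (X.openCount L : ℂ)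

/-- The mean over `j, c j, …, c ^ (f - 1) j` of the sum of the fractional parts of `j a_k / N`. -/
def Covering.weight {κ : Type} [Field κ] (X : Covering κ) (c f j : ℕ) : ℚ :=
  (∑ k, ∑ t ∈ range f, (((j * X.a k * c ^ t) % X.N : ℕ) : ℚ)) / (f * X.N)

/-- Some automorphism of the field of algebraic numbers acts on the roots of unity of order `N` as the
power `v`, and maps `β` to `β` times a root of unity. -/
def FixedWith (N v : ℕ) (β : ℂ) : Prop :=
  ∃ τ : algebraicClosure ℚ ℂ →+* algebraicClosure ℚ ℂ, (∀ ζ, ζ ^ N = 1 → τ ζ = ζ ^ v) ∧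
    ∀ b : algebraicClosure ℚ ℂ, (b : ℂ) = β → ∃ m : ℕ, 0 < m ∧ τ b ^ m = b ^ m

/-- `β` is separated from the coverings. -/
def IsSeparated {κ : Type} [Field κ] {ι : Type} (X : ι → Covering κ) (c f N : ℕ) (β : ℂ) : Prop :=
  ∀ I : Finset ι, I.Nonempty → ∀ j : ι → ℕ, (∀ i ∈ I, ¬ (X i).N ∣ j i) →
    ∃ u : ℕ, u.Coprime N ∧
      ((∃ lam : ℕ, IsIntegral ℤ (((c ^ f : ℕ) : ℂ) ^ lam * β / starRingEnd ℂ β) ∧
        ∑ i ∈ I, (X i).weight c f (u * j i) + (lam : ℚ) / 2 < ∑ i ∈ I, (((X i).n : ℚ) / 2 + 1)) ∨
      ∃ v : ℕ, FixedWith N v β ∧ ∑ i ∈ I, (((X i).s : ℚ) - (X i).n - 2) <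
        ∑ i ∈ I, (X i).weight c f (v * (u * j i)) - ∑ i ∈ I, (X i).weight c f (u * j i))

section galois

variable {Γ : Type} [Group Γ] {K W : Type} [AddCommGroup W] [Module ℂ W]

/-- The action of `γ` on the cohomology of `X`: on the classes of algebraic cycles of codimension
`codim k` by the power of `χ` with this exponent, and on `W` by `ρ`. -/
noncomputable def cohomologyAction (χ : Γ →* ℂˣ) (codim : K → ℕ) (ρ : Γ →* Module.End ℂ W) (γ : Γ) :
    Module.End ℂ ((K → ℂ) × W) :=
  LinearMap.prodMap (LinearMap.pi fun k => (((χ γ : ℂˣ) : ℂ) ^ codim k) • LinearMap.proj k) (ρ γ)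

end galois

section product

variable {Γ : Type} [Group Γ] {ι : Type} {K W : ι → Type}
  [∀ i, AddCommGroup (W i)] [∀ i, Module ℂ (W i)] {B : Type} [AddCommGroup B] [Module ℂ B]

/-- The cohomology of the product of the `X_i` and of `Y` (Künneth formula), with complex
coefficients. -/
abbrev ProductCohomology {ι : Type} (K W : ι → Type) [∀ i, AddCommGroup (W i)]
    [∀ i, Module ℂ (W i)] (B : Type) [AddCommGroup B] [Module ℂ B] : Type :=
  (⨂[ℂ] i, ((K i → ℂ) × W i)) ⊗[ℂ] B

/-- The action of `γ` on the cohomology of the product. -/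
noncomputable def productAction (χ : Γ →* ℂˣ) (codim : ∀ i, K i → ℕ)
    (ρ : ∀ i, Γ →* Module.End ℂ (W i)) (ρY : Γ →* Module.End ℂ B) (γ : Γ) :
    Module.End ℂ (ProductCohomology K W B) :=
  TensorProduct.map
    (PiTensorProduct.map fun i => cohomologyAction χ (codim i) (ρ i) γ) (ρY γ)

/-- The product of the classes of the cycles with the indices `k i` and of the class `b` on `Y`. -/
noncomputable def product [∀ i, DecidableEq (K i)] (k : ∀ i, K i) (b : B) :
    ProductCohomology K W B :=
  (⨂ₜ[ℂ] i, ((Pi.single (k i) 1, 0) : (K i → ℂ) × W i)) ⊗ₜ[ℂ] b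

/-- `v` is a linear combination of products `e_1 × ⋯ × e_r × b` of the classes of cycles on the
`X_i` and of a class `b` on `Y` such that `P (w - codim) b` holds. -/
def IsCombination [∀ i, DecidableEq (K i)] [Fintype ι] (codim : ∀ i, K i → ℕ) (P : ℕ → B → Prop)
    (w : ℕ) (v : ProductCohomology K W B) : Prop :=
  v ∈ Submodule.span ℂ {t | ∃ (k : ∀ i, K i) (b : B), ∑ i, codim i (k i) ≤ w ∧
    P (w - ∑ i, codim i (k i)) b ∧ product k b = t}

end product

/-- The elements of `Γ'` act on `v` by the power `w` of `χ`: `v` is a Tate class of codimension `w` over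
the extension with the group `Γ'`. -/
def IsTateClass {Γ : Type} [Group Γ] (χ : Γ →* ℂˣ) (Γ' : Subgroup Γ) {V : Type} [AddCommGroup V]
    [Module ℂ V] (action : Γ → Module.End ℂ V) (w : ℕ) (v : V) : Prop :=
  ∀ γ ∈ Γ', action γ v = ((χ γ : ℂˣ) : ℂ) ^ w • v

/-- `v` is in the generalised eigenspace of `Φ ^ m` with the eigenvalue `q ^ (m w)`. -/
def IsGeneralTateClass (q m : ℕ) {V : Type} [AddCommGroup V] [Module ℂ V] (Φ : Module.End ℂ V)
    (w : ℕ) (v : V) : Prop :=
  v ∈ Module.End.maxGenEigenspace (Φ ^ m) ((q : ℂ) ^ (m * w))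

/-- The theorem of Deligne for the cohomology `B` of `Y`. -/
def IsPure (q : ℕ) {B : Type} [AddCommGroup B] [Module ℂ B] (Φ : Module.End ℂ B) : Prop :=
  ∀ β, Φ.HasEigenvalue β → IsAlgebraic ℚ β ∧ ∃ j : ℕ, ‖β‖ ^ 2 = (q : ℝ) ^ j

/-- The theorem on Tate classes for products with all varieties `Y` for which all eigenvalues of the
Frobenius satisfy `C`, for all data over `κ`. -/
def TateTheorem {κ : Type} [Field κ] [Fintype κ] {ι : Type} [Fintype ι] [DecidableEq ι]
    (X : ι → Covering κ) (C : ℂ → Prop) : Prop :=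
  ∀ {Γ : Type} [Group Γ] (χ : Γ →* ℂˣ) (σ : Γ), ((χ σ : ℂˣ) : ℂ) = (Fintype.card κ : ℂ) →
  ∀ {K W : ι → Type} [∀ i, Fintype (K i)] [∀ i, DecidableEq (K i)] [∀ i, AddCommGroup (W i)]
    [∀ i, Module ℂ (W i)] [∀ i, FiniteDimensional ℂ (W i)] (codim : ∀ i, K i → ℕ)
    (ρ : ∀ i, Γ →* Module.End ℂ (W i)) (g : ∀ i, Module.End ℂ (W i)),
    (∀ i, IsCyclicCovering (X i) (ρ i σ) (g i)) →
    (∀ i (α : ℂ), (ρ i σ).HasEigenvalue α → ‖α‖ ^ 2 = (Fintype.card κ : ℝ) ^ (X i).n) →
  ∀ {B : Type} [AddCommGroup B] [Module ℂ B] [FiniteDimensional ℂ B]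
    (ρY : Γ →* Module.End ℂ B), IsPure (Fintype.card κ) (ρY σ) →
    (∀ β, (ρY σ).HasEigenvalue β → C β) →
    -- Tate classes over finite extensions
    (∀ (Γ' : Subgroup Γ) [Γ'.FiniteIndex] (w : ℕ) (v : ProductCohomology K W B),
      IsTateClass χ Γ' (productAction χ codim ρ ρY) w v ↔
        IsCombination codim (IsTateClass χ Γ' ρY) w v) ∧
    -- generalised eigenspaces of the powers of the Frobenius
    (∀ (m w : ℕ), 0 < m → ∀ v : ProductCohomology K W B,
      IsGeneralTateClass (Fintype.card κ) m (productAction χ codim ρ ρY σ) w v ↔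
        IsCombination codim (IsGeneralTateClass (Fintype.card κ) m (ρY σ)) w v)

/-- The covering `w ^ N = l_1 ⋯ l_N` of the projective space of dimension `N - 2`, for a prime number
`N`. -/
structure Covering.IsSpecial {κ : Type} [Field κ] (X : Covering κ) : Prop where
  prime : X.N.Prime
  card : X.s = X.N
  dim : X.n + 2 = X.N
  one : ∀ k, X.a k = 1

section lemmas

open Run7.h199.CV Pool.Agent.N876.TC Pool.Agent.N876.FL

variable {c : ℕ} [Fact c.Prime] {κ : Type} [Field κ] [Fintype κ] [CharP κ c] {f : ℕ}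
  {ι : Type} {X : ι → Covering κ}

lemma f_pos (hf : Fintype.card κ = c ^ f) : 0 < f := by
  rcases Nat.eq_zero_or_pos f with h | h
  · rw [h, pow_zero] at hf
    have := Fintype.one_lt_card (α := κ)
    omega
  · exact h

lemma coprime_c (hf : Fintype.card κ = c ^ f) {Y : Covering κ} (hY : Y.IsAdmissible) :
    c.Coprime Y.N := by
  have h1 : Y.N ∣ c ^ f - 1 := by
    rw [← hf]
    exact Pool.Agent.W528.HB.dvd_card_of_root hY.root (by have := hY.two_le; omega)
  have hf0 := f_pos hf
  have h2 : 1 ≤ c ^ f := Nat.one_le_pow _ _ (Fact.out : c.Prime).pos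
  have h3 : (c ^ f).Coprime Y.N := by
    obtain ⟨m, hm⟩ := h1
    have h4 : c ^ f = Y.N * m + 1 := by omega
    rw [h4]
    simp
  exact Nat.Coprime.coprime_dvd_left (dvd_pow_self c hf0.ne') h3

lemma sum_weight (hf : 0 < f) {N : ℕ} (hN : 0 < N) (hdN : ∀ i, (X i).N ∣ N) (I : Finset ι)
    (J : ι → ℕ) :
    (wt c f N (fun i => (X i).N) (fun i => (X i).a) I J : ℚ) =
      (f * N) * ∑ i ∈ I, (X i).weight c f (J i) :=
  wt_cast hf hN (d := fun i => (X i).N) hdN (fun i => (X i).a) I J

/-- the weights of opposite exponents -/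
lemma weight_neg (hf : Fintype.card κ = c ^ f) {N : ℕ} (hN : 0 < N) {Y : Covering κ}
    (hY : Y.IsAdmissible) (hdN : Y.N ∣ N) {x : ℕ} (hx : ¬ Y.N ∣ x) :
    Y.weight c f ((N - 1) * x) = (Y.s : ℚ) - Y.weight c f x := by
  have hf0 := f_pos hf
  have h1 := wt_neg (c := c) (f := f) hN (d := fun _ : Unit => Y.N) (s := fun _ => Y.s)
    (fun _ => hdN) (fun _ => Y.a) (fun _ => hY.coprime) (fun _ => coprime_c hf hY)
    (I := {()}) (J := fun _ => x) (fun _ _ => hx)
  have h2 := congrArg (fun t : ℕ => (t : ℚ)) h1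
  simp only [Nat.cast_add, Nat.cast_mul, Nat.cast_sum, sum_singleton] at h2
  rw [wt_cast hf0 hN (d := fun _ : Unit => Y.N) (fun _ => hdN) (fun _ => Y.a) {()},
    wt_cast hf0 hN (d := fun _ : Unit => Y.N) (fun _ => hdN) (fun _ => Y.a) {()}] at h2
  rw [sum_singleton, sum_singleton] at h2
  have hfN : ((f : ℚ) * N) ≠ 0 := by positivity
  have h3 : (f * N : ℚ) * (Y.weight c f ((N - 1) * x) + Y.weight c f x) = (f * N) * Y.s := by
    rw [mul_add]
    exact h2
  have h4 := mul_left_cancel₀ hfN h3
  linarith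

/-- a separated number has no resonances with the coverings -/
lemma sepI_of (hf : Fintype.card κ = c ^ f) {N : ℕ} (hN : 0 < N)
    (hX : ∀ i, (X i).IsAdmissible) (hdN : ∀ i, (X i).N ∣ N) {β : ℂ}
    (h : IsSeparated X c f N β) {I : Finset ι} (hI : I.Nonempty) :
    SepI c f N (fun i => (X i).N) (fun i => (X i).n) (fun i => (X i).s) (fun i => (X i).a) {β} I := by
  have hf0 := f_pos hf
  have hfN : (0 : ℚ) < (f : ℚ) * N := by positivity
  intro j hj
  obtain ⟨u, hu, hcase⟩ := h I hI j hj
  refine ⟨u, hu, ?_⟩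
  rcases hcase with ⟨lam, h1, h2⟩ | ⟨v, hv, h2⟩
  · left
    refine ⟨lam, ?_, ?_⟩
    · rintro b rfl
      exact h1
    · have h3 : ((2 * wt c f N (fun i => (X i).N) (fun i => (X i).a) I (fun i => u * j i) +
          f * N * lam : ℕ) : ℚ) < ((f * N * ∑ i ∈ I, ((X i).n + 2) : ℕ) : ℚ) := by
        push_cast
        rw [sum_weight hf0 hN hdN]
        have h4 : ∑ i ∈ I, (((X i).n : ℚ) / 2 + 1) = (∑ i ∈ I, (((X i).n : ℚ) + 2)) / 2 := by
          rw [sum_div]
          exact sum_congr rfl fun i _ => by ring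
        rw [h4] at h2
        nlinarith
      exact_mod_cast h3
  · right
    obtain ⟨τ, hτ1, hτ2⟩ := hv
    have hMv : MovesBy N v {β} := ⟨τ, hτ1, fun b hb => hτ2 b hb⟩
    refine ⟨v, hMv, ?_⟩
    have hvN := hMv.coprime hN
    have hJ : ∀ i ∈ I, ¬ (X i).N ∣ v * (u * j i) := fun i hi =>
      not_dvd_mul (hdN i) hvN (not_dvd_mul (hdN i) hu (hj i hi))
    have h3 := wt_neg (c := c) (f := f) hN (d := fun i => (X i).N) (s := fun i => (X i).s) hdN
      (fun i => (X i).a) (fun i => (hX i).coprime) (fun i => coprime_c hf (hX i)) (I := I)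
      (J := fun i => v * (u * j i)) hJ
    have h4 : (wt c f N (fun i => (X i).N) (fun i => (X i).a) I (fun i => u * j i) : ℚ) +
        f * N * ∑ i ∈ I, ((X i).s : ℚ) <
        wt c f N (fun i => (X i).N) (fun i => (X i).a) I (fun i => v * (u * j i)) +
          f * N * ∑ i ∈ I, (((X i).n : ℚ) + 2) := by
      rw [sum_weight hf0 hN hdN, sum_weight hf0 hN hdN]
      have h5 : ∑ i ∈ I, (((X i).s : ℚ) - (X i).n - 2) =
          ∑ i ∈ I, ((X i).s : ℚ) - ∑ i ∈ I, (((X i).n : ℚ) + 2) := by
        rw [← sum_sub_distrib]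
        exact sum_congr rfl fun i _ => by ring
      rw [h5] at h2
      nlinarith
    have h5 : wt c f N (fun i => (X i).N) (fun i => (X i).a) I (fun i => u * j i) +
        f * N * ∑ i ∈ I, (X i).s <
        wt c f N (fun i => (X i).N) (fun i => (X i).a) I (fun i => v * (u * j i)) +
          f * N * ∑ i ∈ I, ((X i).n + 2) := by
      exact_mod_cast h4
    show wt c f N (fun i => (X i).N) (fun i => (X i).a) I (fun i => u * j i) +
      wt c f N (fun i => (X i).N) (fun i => (X i).a) I (fun i => (N - 1) * (v * (u * j i))) <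
      f * N * ∑ i ∈ I, ((X i).n + 2)
    omega

/-- the theorem for separated eigenvalues -/
lemma tate (hf : Fintype.card κ = c ^ f) [Fintype ι] [DecidableEq ι] {N : ℕ} (hN : 0 < N)
    (hX : ∀ i, (X i).IsAdmissible) (hdN : ∀ i, (X i).N ∣ N) :
    TateTheorem X (IsSeparated X c f N) := by
  intro Γ _ χ σ hσ K W _ _ _ _ _ codim ρ g hcov hpure B _ _ _ ρY hY hsep
  have hcov' : ∀ i, Pool.Agent.N876.TC.IsCov (X i).N (X i).l (X i).a (X i).z (ρ i σ) (g i) :=
    fun i => ⟨(hcov i).commute, (hcov i).order, (hcov i).invariants,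
      fun L _ _ _ t => (hcov i).lefschetz L t⟩
  have hres : Pool.Agent.N876.FL.NoRes (Fintype.card κ) (fun i => ρ i σ) (ρY σ) := by
    intro I hI α hα β hβ e m w hm heq
    obtain ⟨hβ1, j, hβj⟩ := hY β hβ
    exact core hN (fun i => (hX i).two_le) hdN κ hf (fun i => (hX i).root) (fun i => (X i).l)
      (fun i => (X i).a) (fun i => (hX i).coprime) hcov' (sepI_of hf hN hX hdN (hsep β hβ) hI) hα
      (fun i hi => hpure i _ (hα i hi)) (Set.mem_singleton β) hβ1 hβj hm heq
  have hq0 : (Fintype.card κ : ℂ) ≠ 0 := by exact_mod_cast Fintype.card_ne_zero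
  have hq1 : 1 < Fintype.card κ := Fintype.one_lt_card
  refine ⟨?_, ?_⟩
  · intro Γ' _ w v
    constructor
    · intro hv
      obtain ⟨h1, h2⟩ := Pool.Agent.N876.FL.gal_tate' hq1 χ σ hσ ρ ρY hres hY codim Γ' w
        (v := v) hv
      rw [h1]
      refine Submodule.sum_mem _ fun k _ => ?_
      rcases h2 k with ⟨h3, h4⟩ | h3
      · exact Submodule.subset_span ⟨k, _, h3, h4, rfl⟩
      · rw [h3, TensorProduct.tmul_zero]
        exact Submodule.zero_mem _
    · intro hv γ hγ
      induction hv using Submodule.span_induction with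
      | mem t ht =>
        obtain ⟨k, b, h1, h2, rfl⟩ := ht
        refine (Pool.Agent.N876.TC.MM_ev ((χ γ : ℂˣ) : ℂ) codim (fun i => ρ i γ) (ρY γ) k b).trans ?_
        rw [h2 γ hγ, TensorProduct.tmul_smul, smul_smul, ← pow_add, Nat.add_sub_cancel' h1]
        rfl
      | zero => rw [map_zero, smul_zero]
      | add x y _ _ hx hy => rw [map_add, hx, hy, smul_add]
      | smul r x _ hx => rw [map_smul, hx, smul_comm]
  · intro m w hm v
    have hact : productAction χ codim ρ ρY σ = Pool.Agent.N876.TC.MM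
        (fun i => Pool.Agent.N876.TC.tot (Fintype.card κ : ℂ) (codim i) (ρ i σ)) (ρY σ) := by
      rw [← hσ]
      rfl
    rw [hact]
    constructor
    · intro hv
      obtain ⟨h1, h2⟩ := Pool.Agent.N876.FL.gen_tate' hq1 hres hY codim hm w (v := v) hv
      rw [h1]
      refine Submodule.sum_mem _ fun k _ => ?_
      rcases h2 k with ⟨h3, h4⟩ | h3
      · exact Submodule.subset_span ⟨k, _, h3, h4, rfl⟩
      · rw [h3, TensorProduct.tmul_zero]
        exact Submodule.zero_mem _
    · refine fun hv => (Submodule.span_le.2 ?_) hv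
      rintro t ⟨k, b, h1, h2, rfl⟩
      have h3 := Pool.Agent.N876.TC.ev_gen (Fintype.card κ : ℂ) codim (fun i => ρ i σ) (ρY σ) k m h2
      have h4 : ((Fintype.card κ : ℂ) ^ (∑ i, codim i (k i))) ^ m *
          (Fintype.card κ : ℂ) ^ (m * (w - ∑ i, codim i (k i))) =
          (Fintype.card κ : ℂ) ^ (m * w) := by
        rw [← pow_mul, ← pow_add, mul_comm _ m, ← mul_add, Nat.add_sub_cancel' h1]
      rw [h4] at h3
      exact h3

/-- complex conjugation -/
lemma sep_conj (hf : Fintype.card κ = c ^ f) {N : ℕ} (hN : 0 < N)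
    (hX : ∀ i, (X i).IsAdmissible) (hdN : ∀ i, (X i).N ∣ N) {β : ℂ} (hβ : FixedWith N (N - 1) β)
    (h : ∀ I : Finset ι, I.Nonempty → ∀ j : ι → ℕ, (∀ i ∈ I, ¬ (X i).N ∣ j i) →
      ∃ u : ℕ, u.Coprime N ∧
        ∑ i ∈ I, (X i).weight c f (u * j i) < ∑ i ∈ I, (((X i).n : ℚ) / 2 + 1)) :
    IsSeparated X c f N β := by
  intro I hI j hj
  obtain ⟨u, hu, hlt⟩ := h I hI j hj
  refine ⟨u, hu, Or.inr ⟨N - 1, hβ, ?_⟩⟩
  have h1 : ∑ i ∈ I, (X i).weight c f ((N - 1) * (u * j i)) =
      ∑ i ∈ I, (((X i).s : ℚ) - (X i).weight c f (u * j i)) :=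
    sum_congr rfl fun i hi => weight_neg hf hN (hX i) (hdN i) (not_dvd_mul (hdN i) hu (hj i hi))
  have h2 : ∑ i ∈ I, (((X i).s : ℚ) - (X i).n - 2) =
      ∑ i ∈ I, ((X i).s : ℚ) - 2 * ∑ i ∈ I, (((X i).n : ℚ) / 2 + 1) := by
    rw [mul_sum, ← sum_sub_distrib]
    exact sum_congr rfl fun i _ => by ring
  rw [h2, h1, sum_sub_distrib]
  linarith

/-- the weight of the special coverings -/
lemma weight_special (hf : 0 < f) {Y : Covering κ} (hY : Y.IsSpecial) (hc : c % Y.N = 1) (x : ℕ) :
    Y.weight c f x = ((x % Y.N : ℕ) : ℚ) := by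
  have hN := hY.prime.two_le
  have hf' : (f : ℚ) ≠ 0 := by exact_mod_cast hf.ne'
  have hN' : (Y.N : ℚ) ≠ 0 := by exact_mod_cast (by omega : Y.N ≠ 0)
  unfold Covering.weight
  have h1 : ∀ k, ∑ t ∈ range f, (((x * Y.a k * c ^ t) % Y.N : ℕ) : ℚ) =
      f * ((x % Y.N : ℕ) : ℚ) := by
    intro k
    have h2 : ∀ t ∈ range f, (((x * Y.a k * c ^ t) % Y.N : ℕ) : ℚ) = ((x % Y.N : ℕ) : ℚ) := by
      intro t _
      have h4 : c ≡ 1 [MOD Y.N] := by
        show c % Y.N = 1 % Y.N
        rw [hc, Nat.mod_eq_of_lt (by omega)]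
      have h3 : c ^ t ≡ 1 [MOD Y.N] := by simpa using h4.pow t
      have h5 : x * Y.a k * c ^ t ≡ x [MOD Y.N] := by
        have h6 := h3.mul_left (x * Y.a k)
        rw [hY.one k, mul_one, mul_one] at h6
        rw [hY.one k, mul_one]
        exact h6
      have h7 : (x * Y.a k * c ^ t) % Y.N = x % Y.N := h5
      rw [h7]
    rw [sum_congr rfl h2, sum_const, card_range, nsmul_eq_mul]
  rw [sum_congr rfl fun k _ => h1 k, sum_const, card_univ, Fintype.card_fin, nsmul_eq_mul, hY.card]
  field_simp

/-- an automorphism which moves the roots of unity of order `N i` -/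
lemma sep_special (hf : Fintype.card κ = c ^ f) [Fintype ι] [DecidableEq ι]
    (hX : ∀ i, (X i).IsSpecial) (hc : ∀ i, c % (X i).N = 1)
    (hne : ∀ i i', i ≠ i' → (X i).N ≠ (X i').N) {β : ℂ} (hβ : IsAlgebraic ℚ β)
    (h : ∀ i, ∃ m : ℕ, 0 < m ∧ ∃ ζ : ℂ, ζ ^ (X i).N = 1 ∧
      ζ ∉ IntermediateField.adjoin ℚ {β ^ m}) :
    IsSeparated X c f (∏ i, (X i).N) β := by
  classical
  have hf0 := f_pos hf
  set N := ∏ i, (X i).N with hNdef
  have hN : 0 < N := prod_pos fun i _ => (hX i).prime.pos
  have hdN : ∀ i, (X i).N ∣ N := fun i => dvd_prod_of_mem _ (mem_univ i)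
  have hco : ∀ i i', i ≠ i' → ((X i).N).Coprime (X i').N := fun i i' hii =>
    (Nat.coprime_primes (hX i).prime (hX i').prime).2 (hne i i' hii)
  have hβA : β ∈ AA := mem_algebraicClosure_iff.mpr hβ
  intro I hI j hj
  obtain ⟨i₀, hi₀⟩ := hI
  -- the automorphism
  obtain ⟨m, hm, ζ, hζ, hζm⟩ := h i₀
  have hζA : ζ ∈ AA := by
    refine mem_algebraicClosure_iff.mpr ⟨Polynomial.X ^ (X i₀).N - 1, ?_, ?_⟩
    · exact X_pow_sub_C_ne_zero (hX i₀).prime.pos (1 : ℚ)
    · rw [map_sub, map_pow, aeval_X, map_one, hζ, sub_self]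
  obtain ⟨τ, hτ1, hτ2⟩ := exists_moving (γ := (⟨β, hβA⟩ : AA) ^ m) (ζ := ⟨ζ, hζA⟩) hζm
  obtain ⟨v, hv⟩ := exists_exponent hN τ
  have hFW : FixedWith N v β := by
    refine ⟨τ, hv, ?_⟩
    rintro b hb
    refine ⟨m, hm, ?_⟩
    have hb' : b = ⟨β, hβA⟩ := Subtype.ext hb
    rw [hb', ← map_pow]
    exact hτ1
  have hMv : MovesBy N v {β} := by
    obtain ⟨τ', h1, h2⟩ := hFW
    exact ⟨τ', h1, fun b hb => h2 b hb⟩
  have hvN := hMv.coprime hN
  have hv1 : v % (X i₀).N ≠ 1 := by
    intro h0
    apply hτ2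
    have h1 : (⟨ζ, hζA⟩ : AA) ^ (X i₀).N = 1 := Subtype.ext (by simpa using hζ)
    have h2 : (⟨ζ, hζA⟩ : AA) ^ N = 1 := by
      obtain ⟨t, ht⟩ := hdN i₀
      rw [ht, pow_mul, h1, one_pow]
    rw [hv _ h2, ← Nat.div_add_mod v (X i₀).N, pow_add, pow_mul, h1, one_pow, one_mul, h0, pow_one]
  have hv0 : v % (X i₀).N ≠ 0 := by
    intro h0
    have h1 := Nat.dvd_of_mod_eq_zero h0
    have h2 : (X i₀).N ∣ 1 := by
      have h3 := Nat.dvd_gcd h1 (hdN i₀)
      rwa [hvN] at h3
    exact (hX i₀).prime.one_lt.ne' (Nat.dvd_one.1 h2)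
  -- the differences
  set D : ι → ℕ → ℤ := fun i x => ((v * x % (X i).N : ℕ) : ℤ) - ((x % (X i).N : ℕ) : ℤ) with hD
  have hneg : ∀ i x, ¬ (X i).N ∣ x → D i ((N - 1) * x) = - D i x := by
    intro i x hx
    have h1 : ¬ (X i).N ∣ v * x := not_dvd_mul (hdN i) hvN hx
    have h2 := neg_mod hN (hdN i) h1
    have h3 := neg_mod hN (hdN i) hx
    have h4 : v * ((N - 1) * x) = (N - 1) * (v * x) := by ring
    simp only [hD]
    rw [h4, h2, h3, Nat.cast_sub (Nat.mod_lt _ (hX i).prime.pos).le,
      Nat.cast_sub (Nat.mod_lt _ (hX i).prime.pos).le]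
    ring
  obtain ⟨ε, hε, hR⟩ : ∃ ε : ℕ, ε.Coprime N ∧ 0 ≤ ∑ i ∈ I.erase i₀, D i (ε * j i) := by
    rcases le_total 0 (∑ i ∈ I.erase i₀, D i (1 * j i)) with h0 | h0
    · exact ⟨1, Nat.coprime_one_left _, h0⟩
    · refine ⟨N - 1, coprime_pred hN, ?_⟩
      have h1 : ∑ i ∈ I.erase i₀, D i ((N - 1) * j i) = - ∑ i ∈ I.erase i₀, D i (1 * j i) := by
        rw [← sum_neg_distrib]
        refine sum_congr rfl fun i hi => ?_
        rw [one_mul]
        exact hneg i (j i) (hj i (mem_of_mem_erase hi))
      rw [h1]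
      omega
  -- the inverse of `j i₀`
  have hjc : (j i₀).Coprime (X i₀).N :=
    ((Nat.Prime.coprime_iff_not_dvd (hX i₀).prime).2 (hj i₀ hi₀)).symm
  obtain ⟨j', -, hj'⟩ := Nat.exists_mul_mod_eq_one_of_coprime hjc (hX i₀).prime.one_lt
  have hj'c : j'.Coprime (X i₀).N := by
    refine ((Nat.Prime.coprime_iff_not_dvd (hX i₀).prime).2 ?_).symm
    intro h1
    have h2 : j i₀ * j' % (X i₀).N = 0 := Nat.mod_eq_zero_of_dvd (h1.mul_left (j i₀))
    omega
  obtain ⟨u, hu1, hu2⟩ := exists_crt (d := fun i => (X i).N) (fun i => (hX i).prime.pos) hco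
    (fun i => if i = i₀ then j' else ε) (fun i => by
      by_cases hi : i = i₀
      · subst hi
        rw [if_pos rfl]
        exact hj'c
      · rw [if_neg hi]
        exact Nat.Coprime.coprime_dvd_right (hdN i) hε)
  refine ⟨u, hu1, Or.inr ⟨v, hFW, ?_⟩⟩
  have hz : ∑ i ∈ I, (((X i).s : ℚ) - (X i).n - 2) = 0 := by
    refine sum_eq_zero fun i _ => ?_
    rw [(hX i).card, ← (hX i).dim]
    push_cast
    ring
  rw [hz, sum_congr rfl fun i _ => weight_special hf0 (hX i) (hc i) (v * (u * j i)),
    sum_congr rfl fun i _ => weight_special hf0 (hX i) (hc i) (u * j i), ← sum_sub_distrib]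
  have hfin : (0 : ℤ) < ∑ i ∈ I, D i (u * j i) := by
    rw [← add_sum_erase I _ hi₀]
    have h1 : ∑ i ∈ I.erase i₀, D i (u * j i) = ∑ i ∈ I.erase i₀, D i (ε * j i) := by
      refine sum_congr rfl fun i hi => ?_
      have h2 := hu2 i
      rw [if_neg (ne_of_mem_erase hi)] at h2
      have h3 : u * j i ≡ ε * j i [MOD (X i).N] := h2.mul_right _
      have h4 : v * (u * j i) ≡ v * (ε * j i) [MOD (X i).N] := h3.mul_left _
      simp only [hD]
      rw [show v * (u * j i) % (X i).N = v * (ε * j i) % (X i).N from h4,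
        show u * j i % (X i).N = ε * j i % (X i).N from h3]
    have h5 : 0 < D i₀ (u * j i₀) := by
      have h2 := hu2 i₀
      rw [if_pos rfl] at h2
      have h3 : u * j i₀ ≡ 1 [MOD (X i₀).N] := by
        have h4 : u * j i₀ ≡ j' * j i₀ [MOD (X i₀).N] := h2.mul_right _
        refine h4.trans ?_
        rw [mul_comm]
        show j i₀ * j' % (X i₀).N = 1 % (X i₀).N
        rw [hj', Nat.mod_eq_of_lt (hX i₀).prime.one_lt]
      have h4 : v * (u * j i₀) ≡ v [MOD (X i₀).N] := by
        have h5 := h3.mul_left v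
        rwa [mul_one] at h5
      simp only [hD]
      rw [show v * (u * j i₀) % (X i₀).N = v % (X i₀).N from h4,
        show u * j i₀ % (X i₀).N = 1 % (X i₀).N from h3,
        Nat.mod_eq_of_lt (hX i₀).prime.one_lt]
      omega
    rw [h1]
    omega
  have h6 : ((∑ i ∈ I, D i (u * j i) : ℤ) : ℚ) =
      ∑ i ∈ I, ((((v * (u * j i)) % (X i).N : ℕ) : ℚ) - (((u * j i) % (X i).N : ℕ) : ℚ)) := by
    simp only [hD]
    push_cast
    rfl
  rw [← h6]
  exact_mod_cast hfin

/-- numbers of small degree -/
lemma small_degree {β : ℂ} (hβ : IsAlgebraic ℚ β) {p : ℕ} (hp : p.Prime)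
    (h : (minpoly ℚ β).natDegree < p - 1) :
    ∃ ζ : ℂ, ζ ^ p = 1 ∧ ζ ∉ IntermediateField.adjoin ℚ {β ^ 1} := by
  have hζ := Complex.isPrimitiveRoot_exp p hp.ne_zero
  refine ⟨_, hζ.pow_eq_one, fun hmem => ?_⟩
  rw [pow_one] at hmem
  have hint : IsIntegral ℚ β := hβ.isIntegral
  have hfd : FiniteDimensional ℚ (IntermediateField.adjoin ℚ {β}) :=
    IntermediateField.adjoin.finiteDimensional hint
  have h1 := minpoly.natDegree_le (A := ℚ)
    (⟨Complex.exp (2 * Real.pi * Complex.I / p), hmem⟩ : IntermediateField.adjoin ℚ {β})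
  have h0 := minpoly.algebraMap_eq (A := ℚ)
    (algebraMap (IntermediateField.adjoin ℚ {β}) ℂ).injective
    (⟨Complex.exp (2 * Real.pi * Complex.I / p), hmem⟩ : IntermediateField.adjoin ℚ {β})
  rw [IntermediateField.adjoin.finrank hint, ← h0] at h1
  have h2 : minpoly ℚ (Complex.exp (2 * Real.pi * Complex.I / p)) = cyclotomic p ℚ :=
    (cyclotomic_eq_minpoly_rat hζ hp.pos).symm
  have h3 : (minpoly ℚ (Complex.exp (2 * Real.pi * Complex.I / p))).natDegree = p - 1 := by
    rw [h2, natDegree_cyclotomic, Nat.totient_prime hp]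
  have h4 : p - 1 ≤ (minpoly ℚ β).natDegree := by
    rw [← h3]
    exact h1
  omega

end lemmas

/-- **Tate classes on products of cyclic coverings branched along hyperplanes with arbitrary varieties
with separated eigenvalues of the Frobenius.** -/
theorem result (c : ℕ) [Fact c.Prime] (κ : Type) [Field κ] [Fintype κ] [CharP κ c] (f : ℕ)
    (hf : Fintype.card κ = c ^ f) {ι : Type} [Fintype ι] [DecidableEq ι] (X : ι → Covering κ)
    (hX : ∀ i, (X i).IsAdmissible) :
    -- (1) the theorem for separated eigenvalues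
    (∀ N : ℕ, 0 < N → (∀ i, (X i).N ∣ N) → TateTheorem X (IsSeparated X c f N)) ∧
    -- (2) complex conjugation
    (∀ N : ℕ, 0 < N → (∀ i, (X i).N ∣ N) → ∀ β : ℂ, FixedWith N (N - 1) β →
      (∀ I : Finset ι, I.Nonempty → ∀ j : ι → ℕ, (∀ i ∈ I, ¬ (X i).N ∣ j i) →
        ∃ u : ℕ, u.Coprime N ∧
          ∑ i ∈ I, (X i).weight c f (u * j i) < ∑ i ∈ I, (((X i).n : ℚ) / 2 + 1)) →
      IsSeparated X c f N β) ∧
    ((∀ i, (X i).IsSpecial) → (∀ i, c % (X i).N = 1) → (∀ i i', i ≠ i' → (X i).N ≠ (X i').N) →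
      -- (3) numbers which are separated from the special coverings
      (∀ β : ℂ, IsAlgebraic ℚ β →
        (∀ i, ∃ m : ℕ, 0 < m ∧ ∃ ζ : ℂ, ζ ^ (X i).N = 1 ∧
          ζ ∉ IntermediateField.adjoin ℚ {β ^ m}) →
        IsSeparated X c f (∏ i, (X i).N) β) ∧
      -- (4) eigenvalues of small degree
      TateTheorem X fun β => ∀ i, (minpoly ℚ β).natDegree < (X i).N - 1) := by
  refine ⟨fun N hN hdN => tate hf hN hX hdN, fun N hN hdN β hβ h => sep_conj hf hN hX hdN hβ h,
    fun hs hc hne => ⟨fun β hβ h => sep_special hf hs hc hne hβ h, ?_⟩⟩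
  intro Γ _ χ σ hσ K W _ _ _ _ _ codim ρ g hcov hpure B _ _ _ ρY hY hdeg
  refine tate hf (N := ∏ i, (X i).N) (prod_pos fun i _ => (hs i).prime.pos) hX
    (fun i => dvd_prod_of_mem _ (mem_univ i)) χ σ hσ codim ρ g hcov hpure ρY hY fun β hβ => ?_
  have hβa := (hY β hβ).1
  exact sep_special hf hs hc hne hβa fun i =>
    ⟨1, one_pos, small_degree hβa (hs i).prime (hdeg β hβ i)⟩

end Pool.Agent.Results.MP_0fca13_ag.CoveringsTimesAnyVariety
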